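import Pool.Agent.H36.Skew.Final

set_option autoImplicit false

open Pool.Agent.H36.Skew Pool.Agent.H80.Poly Pool.Agent.H72.NP

namespace Pool.Agent.Results.MP_447f9a_lc.BspNPHard

/-- For every real constant `c ≥ 4` which is rational, or more generally for which the function
`t ↦ ⌊c t⌋` is computable in polynomial time on numbers written in unary, it is NP-hard to decide
whether a given perfect graph has a skew partition of balanced size with constant `c`. -/
theorem result (c : ℝ) (hc : 4 ≤ c)
    (h : (∃ q : ℚ, c = q) ∨ PolyTime (fun t : UNat => UNat.ofNat ⌊c * (t.toNat : ℝ)⌋₊)) :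
    NPHard (BEnc.enc (α := {I : GraphCode // IsPerfect I.graph})) (fun I => HasBSP c I.1.graph) :=
  npHard_bsp c hc h

end Pool.Agent.Results.MP_447f9a_lc.BspNPHard
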